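import Mathlib
import Pool.Agent.Helper742.Brun

/-!
# Generalised Fermat numbers `a ^ (2 ^ m) + n ^ (2 ^ m)`: the number of roots modulo `p` and Brun's sieve
-/

set_option autoImplicit false

open Finset

namespace Pool.Agent.helper616_gf

/-- a primitive root of unity of order `2 ^ (m + 1)` modulo `p` -/
theorem exists_prim (p m : ℕ) (hp : p.Prime) (h : 2 ^ (m + 1) ∣ p - 1) :
    ∃ g : ZMod p, IsPrimitiveRoot g (2 ^ (m + 1)) := by
  haveI := Fact.mk hp
  obtain ⟨u, hu⟩ := IsCyclic.exists_generator (α := (ZMod p)ˣ)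
  have hord : orderOf u = p - 1 := by
    rw [orderOf_eq_card_of_forall_mem_zpowers hu, Nat.card_eq_fintype_card, ZMod.card_units]
  obtain ⟨k, hk⟩ := h
  have hp1 : 0 < p - 1 := by have := hp.two_le; omega
  have hpr : IsPrimitiveRoot u (p - 1) := hord ▸ IsPrimitiveRoot.orderOf u
  have h1 : IsPrimitiveRoot (u ^ k) (2 ^ (m + 1)) := by
    refine hpr.pow hp1 ?_
    rw [mul_comm]; exact hk
  refine ⟨((u ^ k : (ZMod p)ˣ) : ZMod p), ?_⟩
  exact IsPrimitiveRoot.coe_units_iff.mpr h1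

theorem pow_neg_one (p m : ℕ) (hp : p.Prime) (g : ZMod p) (hg : IsPrimitiveRoot g (2 ^ (m + 1))) :
    g ^ (2 ^ m) = -1 := by
  haveI := Fact.mk hp
  have h1 : (g ^ (2 ^ m)) ^ 2 = 1 := by
    rw [← pow_mul, ← pow_succ]; exact hg.pow_eq_one
  have h2 : g ^ (2 ^ m) ≠ 1 := hg.pow_ne_one_of_pos_of_lt (by positivity)
    (Nat.pow_lt_pow_right (by norm_num) (by omega))
  rcases sq_eq_one_iff_of_ne_zero_or h1 with h | h
  · exact absurd h h2
  · exact h
where
  sq_eq_one_iff_of_ne_zero_or {p : ℕ} [Fact p.Prime] {x : ZMod p} (h : x ^ 2 = 1) :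
      x = 1 ∨ x = -1 := sq_eq_one_iff_of_ne_zero h
  sq_eq_one_iff_of_ne_zero {p : ℕ} [Fact p.Prime] {x : ZMod p} (h : x ^ 2 = 1) :
      x = 1 ∨ x = -1 := by
    have : (x - 1) * (x + 1) = 0 := by linear_combination h
    rcases mul_eq_zero.mp this with h | h
    · left; linear_combination h
    · right; linear_combination h

/-- the number of the roots of `x ^ (2 ^ m) = - a ^ (2 ^ m)` -/
theorem card_roots (p m a : ℕ) (hp : p.Prime) (h : 2 ^ (m + 1) ∣ p - 1) (ha : ¬ p ∣ a) :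
    ((range p).filter fun n => p ∣ a ^ (2 ^ m) + n ^ (2 ^ m)).card = 2 ^ m := by
  classical
  haveI := Fact.mk hp
  have : NeZero p := ⟨hp.ne_zero⟩
  obtain ⟨g, hg⟩ := exists_prim p m hp h
  have hg2 : IsPrimitiveRoot (g ^ 2) (2 ^ m) := hg.pow (by positivity) (by rw [pow_succ]; ring)
  have hgm := pow_neg_one p m hp g hg
  have ha0 : (a : ZMod p) ≠ 0 := by
    rw [Ne, ZMod.natCast_eq_zero_iff]; exact ha
  have hne : -(a : ZMod p) ^ (2 ^ m) ≠ 0 := neg_ne_zero.mpr (pow_ne_zero _ ha0)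
  have hcard : Multiset.card (Polynomial.nthRoots (2 ^ m) (-(a : ZMod p) ^ (2 ^ m))) = 2 ^ m := by
    rw [hg2.card_nthRoots, if_pos]
    refine ⟨g * a, ?_⟩
    rw [mul_pow, hgm]; ring
  have hnd := hg2.nthRoots_nodup hne
  have h1 : ((Polynomial.nthRoots (2 ^ m) (-(a : ZMod p) ^ (2 ^ m))).toFinset).card = 2 ^ m := by
    rw [Multiset.toFinset_card_of_nodup hnd, hcard]
  refine Eq.trans ?_ h1
  refine Finset.card_bij (fun n _ => (n : ZMod p)) ?_ ?_ ?_
  · intro n hn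
    rw [mem_filter] at hn
    rw [Multiset.mem_toFinset, Polynomial.mem_nthRoots (by positivity)]
    have h2 : ((a ^ (2 ^ m) + n ^ (2 ^ m) : ℕ) : ZMod p) = 0 := by
      rw [ZMod.natCast_eq_zero_iff]; exact hn.2
    push_cast at h2
    linear_combination h2
  · intro n hn n' hn' hnn
    rw [mem_filter, mem_range] at hn hn'
    have h2 := (ZMod.natCast_eq_natCast_iff' _ _ _).mp hnn
    rwa [Nat.mod_eq_of_lt hn.1, Nat.mod_eq_of_lt hn'.1] at h2
  · intro x hx
    rw [Multiset.mem_toFinset, Polynomial.mem_nthRoots (by positivity)] at hx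
    refine ⟨x.val, ?_, ?_⟩
    · rw [mem_filter, mem_range]
      refine ⟨ZMod.val_lt x, ?_⟩
      rw [← ZMod.natCast_eq_zero_iff]
      push_cast
      rw [ZMod.natCast_zmod_val, hx]; ring
    · exact ZMod.natCast_zmod_val x

open Classical in
/-- the indicator function -/
noncomputable def ind (a m : ℕ) (p n : ℕ) : ℝ := if p ∣ a ^ (2 ^ m) + n ^ (2 ^ m) then 1 else 0

theorem mean_ind (p m a : ℕ) (hp : p.Prime) (h : 2 ^ (m + 1) ∣ p - 1) (ha : ¬ p ∣ a) :
    Pool.Agent.Helper742.mean (ind a m) p = 2 ^ m / p := by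
  unfold Pool.Agent.Helper742.mean ind
  rw [Finset.sum_ite, Finset.sum_const_zero, add_zero, Finset.sum_const, nsmul_eq_mul, mul_one]
  congr 1
  have := card_roots p m a hp h ha
  exact_mod_cast this

theorem ind_per (p m a n : ℕ) : ind a m p (n % p) = ind a m p n := by
  unfold ind
  have h : (a ^ (2 ^ m) + (n % p) ^ (2 ^ m)) ≡ (a ^ (2 ^ m) + n ^ (2 ^ m)) [MOD p] :=
    Nat.ModEq.add_left _ ((Nat.mod_modEq n p).pow _)
  have h2 : (p ∣ a ^ (2 ^ m) + (n % p) ^ (2 ^ m)) ↔ (p ∣ a ^ (2 ^ m) + n ^ (2 ^ m)) :=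
    (Nat.ModEq.dvd_iff h dvd_rfl)
  simp only [h2]

/-- `a ^ (2 ^ m) + n ^ (2 ^ m)` is a prime, or twice a prime, or has no odd prime factor `≤ Y` -/
def Hard (a m Y n : ℕ) : Prop :=
  (a ^ (2 ^ m) + n ^ (2 ^ m)).Prime ∨ (∃ P : ℕ, P.Prime ∧ a ^ (2 ^ m) + n ^ (2 ^ m) = 2 * P) ∨
    ∀ p : ℕ, p.Prime → p ≠ 2 → p ∣ a ^ (2 ^ m) + n ^ (2 ^ m) → Y < p

open Classical in
/-- **the sieve bound** -/
theorem sieve_bound (a m B y Y r : ℕ) (hy : 1 ≤ y) (hyY : y ≤ Y) (hr : Odd r) (T : Finset ℕ)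
    (hT : ∀ p ∈ T, p.Prime ∧ p ≤ y ∧ 2 ^ (m + 1) ∣ p - 1 ∧ ¬ p ∣ a) :
    (((range (B + 1)).filter fun n => Hard a m Y n).card : ℝ) ≤
      (B + 1) * (Real.exp (-∑ p ∈ T, (2 : ℝ) ^ m / p) +
        Real.exp (8 * ∑ p ∈ T, (2 : ℝ) ^ m / p - 2 * r)) + 3 * (y : ℝ) ^ (2 * r) + (2 * y + 1) := by
  set μ := ∑ p ∈ T, (2 : ℝ) ^ m / p with hμ
  have hu0 : ∀ p ∈ T, ∀ n, 0 ≤ ind a m p n := by
    intro p _ n; unfold ind; split_ifs <;> norm_num
  have hu1 : ∀ p ∈ T, ∀ n, ind a m p n ≤ 1 := by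
    intro p _ n; unfold ind; split_ifs <;> norm_num
  have hbrun := Pool.Agent.Helper742.brun T y r hy hr (fun p hp => ⟨(hT p hp).1, (hT p hp).2.1⟩)
    (ind a m) hu0 hu1 (fun p _ n => ind_per p m a n) (Real.exp 2) (Real.exp_pos 2) (B + 1)
  have hmean : ∀ p ∈ T, Pool.Agent.Helper742.mean (ind a m) p = 2 ^ m / p := fun p hp =>
    mean_ind p m a (hT p hp).1 (hT p hp).2.2.1 (hT p hp).2.2.2
  have hsum : ∑ p ∈ T, Pool.Agent.Helper742.mean (ind a m) p = μ := Finset.sum_congr rfl hmean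
  have hμ0 : 0 ≤ μ := Finset.sum_nonneg fun p _ => by positivity
  have hle1 : ∀ p ∈ T, (2 : ℝ) ^ m / p ≤ 1 := by
    intro p hp
    rw [← hmean p hp]
    have hpp : (0 : ℝ) < p := by exact_mod_cast (hT p hp).1.pos
    rw [Pool.Agent.Helper742.mean, div_le_one hpp]
    calc ∑ n ∈ range p, ind a m p n ≤ ∑ n ∈ range p, (1 : ℝ) :=
          Finset.sum_le_sum (fun n _ => hu1 p hp n)
      _ = p := by simp
  have hprod : ∏ p ∈ T, (1 - Pool.Agent.Helper742.mean (ind a m) p) ≤ Real.exp (-μ) := by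
    rw [hμ, ← Finset.sum_neg_distrib, Real.exp_sum]
    apply Finset.prod_le_prod
    · intro p hp
      rw [hmean p hp]
      linarith [hle1 p hp]
    · intro p hp
      rw [hmean p hp]
      have := Real.add_one_le_exp (-((2 : ℝ) ^ m / p))
      linarith
  have hK : ((Real.exp 2)⁻¹) ^ r * Real.exp (Real.exp 2 * ∑ p ∈ T, Pool.Agent.Helper742.mean (ind a m) p)
      ≤ Real.exp (8 * μ - 2 * r) := by
    rw [hsum, ← Real.exp_neg, ← Real.exp_nat_mul, ← Real.exp_add]
    apply Real.exp_le_exp.mpr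
    have he : Real.exp 2 ≤ 8 := by
      have h1 : Real.exp 2 = Real.exp 1 * Real.exp 1 := by rw [← Real.exp_add]; norm_num
      have h2 := Real.exp_one_lt_d9
      have h3 := Real.exp_pos 1
      rw [h1]; nlinarith
    nlinarith
  -- the two kinds of `n`
  have hcount : (((range (B + 1)).filter fun n => Hard a m Y n).card : ℝ) ≤
      ∑ n ∈ range (B + 1), ∏ p ∈ T, (1 - ind a m p n) + (2 * y + 1) := by
    have hsplit : ((range (B + 1)).filter fun n => Hard a m Y n) ⊆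
        ((range (B + 1)).filter fun n => ∀ p ∈ T, ¬ p ∣ a ^ (2 ^ m) + n ^ (2 ^ m)) ∪ range (2 * y + 1) := by
      intro n hn
      rw [mem_filter] at hn
      rw [mem_union, mem_filter]
      by_cases h : ∀ p ∈ T, ¬ p ∣ a ^ (2 ^ m) + n ^ (2 ^ m)
      · left; exact ⟨hn.1, h⟩
      · right
        push Not at h
        obtain ⟨p, hp, hdvd⟩ := h
        have hp2 : p ≠ 2 := by
          rintro rfl
          have h1 := (hT 2 hp).2.2.1
          have h2 := Nat.le_of_dvd (by norm_num) h1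
          have h3 : 2 ^ 1 ≤ 2 ^ (m + 1) := Nat.pow_le_pow_right (by norm_num) (by omega)
          omega
        have h2 : n ≤ n ^ (2 ^ m) := Nat.le_self_pow (by positivity) n
        have h3 := (hT p hp).2.1
        rcases hn.2 with hpr | ⟨P, hP, hN⟩ | hpr
        · have h1 := (Nat.prime_dvd_prime_iff_eq (hT p hp).1 hpr).mp hdvd
          rw [mem_range]
          omega
        · rw [hN, (hT p hp).1.dvd_mul] at hdvd
          rcases hdvd with h4 | h4
          · exact absurd ((Nat.prime_dvd_prime_iff_eq (hT p hp).1 Nat.prime_two).mp h4) hp2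
          · have h5 := (Nat.prime_dvd_prime_iff_eq (hT p hp).1 hP).mp h4
            rw [mem_range]
            omega
        · have h1 := hpr p (hT p hp).1 hp2 hdvd
          omega
    have h1 := (Finset.card_le_card hsplit).trans (Finset.card_union_le _ _)
    rw [Finset.card_range] at h1
    have h2 : (((range (B + 1)).filter fun n => ∀ p ∈ T, ¬ p ∣ a ^ (2 ^ m) + n ^ (2 ^ m)).card : ℝ) ≤
        ∑ n ∈ range (B + 1), ∏ p ∈ T, (1 - ind a m p n) := by
      rw [← Finset.sum_filter_add_sum_filter_not (range (B + 1))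
        (fun n => ∀ p ∈ T, ¬ p ∣ a ^ (2 ^ m) + n ^ (2 ^ m))]
      have h3 : ∑ n ∈ (range (B + 1)).filter (fun n => ∀ p ∈ T, ¬ p ∣ a ^ (2 ^ m) + n ^ (2 ^ m)),
          ∏ p ∈ T, (1 - ind a m p n) =
          (((range (B + 1)).filter fun n => ∀ p ∈ T, ¬ p ∣ a ^ (2 ^ m) + n ^ (2 ^ m)).card : ℝ) := by
        rw [Finset.card_eq_sum_ones]
        push_cast
        apply Finset.sum_congr rfl
        intro n hn
        rw [mem_filter] at hn
        apply Finset.prod_eq_one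
        intro p hp
        unfold ind
        rw [if_neg (hn.2 p hp)]; ring
      rw [h3]
      have h4 : 0 ≤ ∑ n ∈ (range (B + 1)).filter (fun n => ¬ ∀ p ∈ T, ¬ p ∣ a ^ (2 ^ m) + n ^ (2 ^ m)),
          ∏ p ∈ T, (1 - ind a m p n) := by
        apply Finset.sum_nonneg
        intro n _
        apply Finset.prod_nonneg
        intro p hp
        linarith [hu1 p hp n]
      linarith
    have h5 : (((range (B + 1)).filter fun n => Hard a m Y n).card : ℝ) ≤
      (((range (B + 1)).filter fun n => ∀ p ∈ T, ¬ p ∣ a ^ (2 ^ m) + n ^ (2 ^ m)).card : ℝ) + (2 * y + 1) := by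
      exact_mod_cast h1
    linarith
  refine hcount.trans ?_
  have h6 : ∑ n ∈ range (B + 1), ∏ p ∈ T, (1 - ind a m p n) ≤
      (B + 1) * (Real.exp (-μ) + Real.exp (8 * μ - 2 * r)) + 3 * (y : ℝ) ^ (2 * r) := by
    refine hbrun.trans ?_
    have h7 : ((B + 1 : ℕ) : ℝ) = B + 1 := by push_cast; ring
    rw [h7]
    have h8 : (0 : ℝ) ≤ B + 1 := by positivity
    have := mul_le_mul_of_nonneg_left (add_le_add hprod hK) h8
    linarith
  linarith

/-- choice of a subset with a prescribed sum -/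
theorem subset_sum (T : Finset ℕ) (w : ℕ → ℝ) (h0 : ∀ p ∈ T, 0 ≤ w p) (h1 : ∀ p ∈ T, w p ≤ 1)
    (t : ℝ) (ht : 0 ≤ t) (htot : t ≤ ∑ p ∈ T, w p) :
    ∃ T' ⊆ T, t - 1 ≤ ∑ p ∈ T', w p ∧ ∑ p ∈ T', w p ≤ t := by
  classical
  induction T using Finset.induction with
  | empty =>
    refine ⟨∅, Finset.Subset.refl _, ?_, ?_⟩
    · simp at htot ⊢; linarith
    · simpa using ht
  | insert q T hq ih =>
    rw [Finset.sum_insert hq] at htot
    by_cases h : t ≤ ∑ p ∈ T, w p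
    · obtain ⟨T', hT', h2, h3⟩ := ih (fun p hp => h0 p (mem_insert_of_mem hp))
        (fun p hp => h1 p (mem_insert_of_mem hp)) h
      exact ⟨T', hT'.trans (subset_insert _ _), h2, h3⟩
    · push Not at h
      refine ⟨T, subset_insert _ _, ?_, h.le⟩
      have := h1 q (mem_insert_self _ _)
      linarith

end Pool.Agent.helper616_gf
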