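import Mathlib
import Pool.Agent.Y353.PS.Page

/-!
# The primes in residue classes modulo powers of two

A Linnik type lower bound, from the theorems of the starting files: the real characters modulo a power of two have
conductor at most `8`, so that no character is exceptional.
-/

set_option autoImplicit false

open Finset

namespace Pool.Agent.helper616_gf

open Pool.Agent.H262R3.Lk Pool.Agent.W69.MH Pool.Agent.W215.MH

/-- integers congruent to `1` modulo `8` are squares modulo every power of two -/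
theorem square_two (u : ℤ) (hu : u % 8 = 1) (k : ℕ) : ∃ x : ℤ, x % 2 = 1 ∧ (2 : ℤ) ^ (k + 3) ∣ x ^ 2 - u := by
  induction k with
  | zero =>
    refine ⟨1, by norm_num, ?_⟩
    norm_num
    omega
  | succ k ih =>
    obtain ⟨x, hx, c, hc⟩ := ih
    rcases Int.even_or_odd c with ⟨d, hd⟩ | ⟨d, hd⟩
    · refine ⟨x, hx, d, ?_⟩
      rw [hc, hd, show k + 1 + 3 = (k + 3) + 1 by ring, pow_succ]; ring
    · obtain ⟨e, he⟩ : ∃ e, x = 2 * e + 1 := ⟨x / 2, by omega⟩
      refine ⟨x + 2 ^ (k + 2), ?_, ?_⟩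
      · have : (2 : ℤ) ^ (k + 2) = 2 * 2 ^ (k + 1) := by rw [show k + 2 = (k + 1) + 1 by ring, pow_succ]; ring
        omega
      · refine ⟨d + e + 1 + 2 ^ k, ?_⟩
        have h1 : (x + 2 ^ (k + 2)) ^ 2 - u = (x ^ 2 - u) + 2 * x * 2 ^ (k + 2) + (2 ^ (k + 2)) ^ 2 := by ring
        rw [h1, hc, hd, he]
        ring

/-- real characters modulo a power of two have conductor at most `8` -/
theorem conductor_le (k : ℕ) (χ : DirichletCharacter ℂ (2 ^ k)) (hχ : χ ^ 2 = 1) :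
    χ.conductor ≤ 8 := by
  haveI : NeZero (2 ^ k) := ⟨by positivity⟩
  by_cases hk : k < 3
  · have h1 := χ.conductor_dvd_level
    have h2 := Nat.le_of_dvd (by positivity) h1
    have h3 : 2 ^ k ≤ 2 ^ 3 := Nat.pow_le_pow_right (by norm_num) (by omega)
    omega
  · push Not at hk
    obtain ⟨j, rfl⟩ : ∃ j, k = j + 3 := ⟨k - 3, by omega⟩
    have h8 : 8 ∣ 2 ^ (j + 3) := ⟨2 ^ j, by rw [pow_add]; ring⟩
    have hf : χ.FactorsThrough 8 := by
      rw [DirichletCharacter.factorsThrough_iff_ker_unitsMap h8]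
      intro u hu
      rw [MonoidHom.mem_ker] at hu ⊢
      -- a representative
      have hval : ((u : ZMod (2 ^ (j + 3))).val : ℤ) % 8 = 1 := by
        have h1 := congrArg (fun w : (ZMod 8)ˣ => (w : ZMod 8)) hu
        simp only [ZMod.unitsMap_def, Units.coe_map, MonoidHom.coe_coe, ZMod.castHom_apply,
          Units.val_one] at h1
        have h2 : (((u : ZMod (2 ^ (j + 3))).val : ℕ) : ZMod 8) = 1 := by
          rw [← h1]
          exact (ZMod.natCast_val _)
        have h3 : (((u : ZMod (2 ^ (j + 3))).val : ℕ) : ZMod 8) = ((1 : ℕ) : ZMod 8) := by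
          rw [h2]; norm_num
        rw [ZMod.natCast_eq_natCast_iff'] at h3
        omega
      obtain ⟨x, hx, hxd⟩ := square_two _ hval j
      -- the square root
      have hx2 : ((x : ZMod (2 ^ (j + 3)))) ^ 2 = (u : ZMod (2 ^ (j + 3))) := by
        have h1 : ((x ^ 2 - ((u : ZMod (2 ^ (j + 3))).val : ℤ) : ℤ) : ZMod (2 ^ (j + 3))) = 0 := by
          rw [ZMod.intCast_zmod_eq_zero_iff_dvd]
          exact_mod_cast hxd
        push_cast at h1
        rw [ZMod.natCast_zmod_val] at h1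
        linear_combination h1
      have hxu : IsUnit (x : ZMod (2 ^ (j + 3))) := by
        have h1 : IsUnit ((x : ZMod (2 ^ (j + 3))) ^ 2) := by rw [hx2]; exact u.isUnit
        exact (isUnit_pow_iff (by norm_num)).mp h1
      have hu2 : u = hxu.unit ^ 2 := by
        ext
        rw [Units.val_pow_eq_pow_val, IsUnit.unit_spec, hx2]
      rw [hu2, map_pow, ← Units.val_inj, Units.val_pow_eq_pow_val]
      have h3 : χ ((hxu.unit : (ZMod (2 ^ (j + 3)))ˣ) : ZMod (2 ^ (j + 3))) ^ 2 = 1 := by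
        rw [← MulChar.pow_apply' _ (by norm_num), hχ, MulChar.one_apply_coe]
      simpa using h3
    have h9 := DirichletCharacter.conductor_le_conductor_mem_conductorSet
      (χ.mem_conductorSet_iff.mpr hf)
    have h10 := DirichletCharacter.conductor_dvd_of_mem_conductorSet (χ := χ)
      (χ.mem_conductorSet_iff.mpr hf)
    exact Nat.le_of_dvd (by norm_num) h10

/-- **Primes in residue classes modulo powers of two**: a lower bound of the right order for
`q ^ 16 ≤ z`. -/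
theorem page_two : ∃ (K : ℕ) (c : ℝ) (z0 : ℕ), 1 ≤ K ∧ 0 < c ∧ ∀ z : ℕ, z0 ≤ z → ∀ k b : ℕ,
    (2 ^ k) ^ 16 ≤ z → b.Coprime (2 ^ k) →
    c / ((2 ^ k).totient : ℝ) ≤
      ∑ p ∈ (Ioc z (z ^ K)).filter (fun p => p.Prime ∧ p ≡ b [MOD (2 ^ k)]), (1 : ℝ) / p := by
  have hSUM := Pool.Agent.W933.MHSum.sum_
  have hFL := Pool.Agent.W333.MH.fl
  have hDIFF := Pool.Agent.W505.MH.diff hFL hSUM
  have hA0 := Pool.Agent.W505.MH.a0 hFL hSUM
  have hCLS := Pool.Agent.W193.MH.Cls.cls hSUM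
  have hB0 := Pool.Agent.H262R3.Lk.b0 Pool.Agent.W505.MH.bt hSUM
  have hB2 := Pool.Agent.W440.MH.b2 hSUM
  have hALG := Pool.Agent.H262R3.Lk.alg hSUM
  have hLIN := Pool.Agent.Y353.PS.linP hSUM hDIFF hA0 hB0 hB2 hALG Pool.Agent.W215.MH.eul hCLS
    Pool.Agent.W701.MH.abs_
  have hTAIL := Pool.Agent.W803.MH.tail Pool.Agent.W505.MH.bt hSUM
  obtain ⟨A, c, lam, hA, hc, hlam, hlam2, z1, h1⟩ := hLIN
  obtain ⟨K, z2, hK, h2⟩ := hTAIL A (c / 2) hA (by positivity)
  obtain ⟨z3, h3⟩ := Pool.Agent.H262R3.Lk.swq 1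
  have hK0 : (0 : ℝ) < (K : ℝ) := by exact_mod_cast hK
  refine ⟨K, c / (2 * (K : ℝ) ^ 3), max (max (max z1 z2) z3) (⌈Real.exp 8⌉₊), hK, by positivity, ?_⟩
  intro z hz k b hq hb
  simp only [max_le_iff] at hz
  obtain ⟨⟨⟨hz1, hz2⟩, hz3⟩, hz4⟩ := hz
  have hz0 : (0 : ℝ) < z := by
    have h5 : Real.exp 8 ≤ z := (Nat.le_ceil _).trans (by exact_mod_cast hz4)
    exact (Real.exp_pos 8).trans_le h5
  have hlog : (8 : ℝ) ≤ Real.log z := by
    rw [Real.le_log_iff_exp_le hz0]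
    exact (Nat.le_ceil _).trans (by exact_mod_cast hz4)
  have hAlog : (1 : ℝ) ≤ A * Real.log z := by nlinarith
  have hs0 : (0 : ℝ) < 1 / (A * Real.log z) := by positivity
  have hs1 : 1 / (A * Real.log z) ≤ (1 : ℝ) := by
    rw [div_le_one (by linarith)]
    exact hAlog
  have hqpos : 0 < 2 ^ k := by positivity
  have hq8 : (2 ^ k) ^ 8 ≤ z := (Nat.pow_le_pow_right hqpos (by norm_num)).trans hq
  have hqz : 2 ^ k ≤ z := (Nat.le_self_pow (by norm_num) _).trans hq
  have : NeZero (2 ^ k) := ⟨hqpos.ne'⟩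
  -- no real character is exceptional
  have hreal : ∀ χ : DirichletCharacter ℂ (2 ^ k), χ ≠ 1 → χ ^ 2 = 1 →
      lam ≤ ‖Lj z χ 0 (1 / (A * Real.log z))‖ := by
    intro χ hχ hχ2
    have hc8 := conductor_le k χ hχ2
    have hc0 : χ.conductor ≠ 0 := χ.conductor_ne_zero
    have hc1 : χ.conductor ≠ 1 := fun h => hχ (χ.eq_one_iff_conductor_eq_one.2 h)
    have hcl : (χ.conductor : ℝ) ≤ Real.log z ^ 1 := by
      rw [pow_one]
      have : (χ.conductor : ℝ) ≤ 8 := by exact_mod_cast hc8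
      linarith
    have g1 := h3 z hz3 χ.conductor (by omega) hcl χ.primitiveCharacter
      χ.primitiveCharacter_isPrimitive _ hs0 hs1
    have g2 := Pool.Agent.Y835.SC.Lj_lift (z := z) χ.conductor_dvd_level hqz
      χ.primitiveCharacter (1 / (A * Real.log z))
    rw [DirichletCharacter.changeLevel_primitiveCharacter] at g2
    rw [g2]
    linarith
  have hlow := (h1 z (2 ^ k) hz1 hq8).1 b hb hreal
  have hup := h2 z (2 ^ k) b hz2 hqpos hq8 hb
  have hphi : (0 : ℝ) < ((2 ^ k).totient : ℝ) := by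
    exact_mod_cast Nat.totient_pos.2 hqpos
  have hL3 : (0 : ℝ) < (Real.log z) ^ 3 := by positivity
  obtain ⟨S, hS⟩ : ∃ S : ℝ, S = ∑ p ∈ (Ioc z (z ^ K)).filter
    (fun p => p.Prime ∧ p ≡ b [MOD (2 ^ k)]), (1 : ℝ) / p := ⟨_, rfl⟩
  rw [← hS] at hup ⊢
  have h5 : c * (Real.log z) ^ 3 / ((2 ^ k).totient : ℝ) ≤
      c / 2 * (Real.log z) ^ 3 / ((2 ^ k).totient : ℝ) + (K : ℝ) ^ 3 * (Real.log z) ^ 3 * S :=
    le_trans hlow hup
  have h6 : (c / 2 / ((2 ^ k).totient : ℝ)) * (Real.log z) ^ 3 ≤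
      ((K : ℝ) ^ 3 * S) * (Real.log z) ^ 3 := by
    have e1 : c * (Real.log z) ^ 3 / ((2 ^ k).totient : ℝ) =
        2 * ((c / 2 / ((2 ^ k).totient : ℝ)) * (Real.log z) ^ 3) := by
      field_simp
    have e2 : c / 2 * (Real.log z) ^ 3 / ((2 ^ k).totient : ℝ) =
        (c / 2 / ((2 ^ k).totient : ℝ)) * (Real.log z) ^ 3 := by
      field_simp
    rw [e1, e2] at h5
    nlinarith
  have h7 : c / 2 / ((2 ^ k).totient : ℝ) ≤ (K : ℝ) ^ 3 * S :=
    le_of_mul_le_mul_right h6 hL3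
  have hK3 : (0 : ℝ) < (K : ℝ) ^ 3 := by positivity
  have e3 : c / (2 * (K : ℝ) ^ 3) / ((2 ^ k).totient : ℝ) =
      (c / 2 / ((2 ^ k).totient : ℝ)) / (K : ℝ) ^ 3 := by
    field_simp
  rw [e3, div_le_iff₀ hK3]
  linarith

end Pool.Agent.helper616_gf
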