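import Mathlib
import Pool.Agent.helper616_gf.Count
import Pool.Agent.helper616_gf.Two

/-!
# Generalised Fermat numbers with almost all bases are composite
-/

set_option autoImplicit false

open Finset

namespace Pool.Agent.helper616_gf

/-- the primes congruent to one modulo `2 ^ (m + 1)` in `(z0, z0 ^ (K ^ J)]` -/
theorem blocks (K : ℕ) (c : ℝ) (z1 z0 m : ℕ) (hK : 1 ≤ K) (hz : z1 ≤ z0) (hz1 : 1 ≤ z0)
    (hm : (2 ^ (m + 1)) ^ 16 ≤ z0)
    (h : ∀ z : ℕ, z1 ≤ z → ∀ k b : ℕ, (2 ^ k) ^ 16 ≤ z → b.Coprime (2 ^ k) →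
      c / ((2 ^ k).totient : ℝ) ≤
        ∑ p ∈ (Ioc z (z ^ K)).filter (fun p => p.Prime ∧ p ≡ b [MOD (2 ^ k)]), (1 : ℝ) / p) (J : ℕ) :
    c * J ≤ ∑ p ∈ (Ioc z0 (z0 ^ (K ^ J))).filter (fun p => p.Prime ∧ p ≡ 1 [MOD (2 ^ (m + 1))]),
      (2 : ℝ) ^ m / p := by
  have htot : ((2 ^ (m + 1)).totient : ℝ) = 2 ^ m := by
    rw [Nat.totient_prime_pow Nat.prime_two (by omega)]
    simp
  induction J with
  | zero => simp
  | succ J ih =>
    have hle : z0 ≤ z0 ^ (K ^ J) := Nat.le_self_pow (by positivity) z0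
    have h1 := h (z0 ^ (K ^ J)) (hz.trans hle) (m + 1) 1 (hm.trans hle) (Nat.coprime_one_left _)
    rw [htot] at h1
    have h2 : (z0 ^ (K ^ J)) ^ K = z0 ^ (K ^ (J + 1)) := by rw [← pow_mul, ← pow_succ]
    rw [h2] at h1
    have hle2 : z0 ^ (K ^ J) ≤ z0 ^ (K ^ (J + 1)) :=
      Nat.pow_le_pow_right hz1 (Nat.pow_le_pow_right hK (by omega))
    have hun : Ioc z0 (z0 ^ (K ^ (J + 1))) =
        Ioc z0 (z0 ^ (K ^ J)) ∪ Ioc (z0 ^ (K ^ J)) (z0 ^ (K ^ (J + 1))) := by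
      rw [Finset.Ioc_union_Ioc_eq_Ioc hle hle2]
    have hdis : Disjoint (Ioc z0 (z0 ^ (K ^ J))) (Ioc (z0 ^ (K ^ J)) (z0 ^ (K ^ (J + 1)))) := by
      rw [Finset.disjoint_left]
      intro x hx hx'
      rw [mem_Ioc] at hx hx'
      omega
    rw [hun, Finset.filter_union, Finset.sum_union (Finset.disjoint_filter_filter hdis)]
    have h3 : c ≤ ∑ p ∈ (Ioc (z0 ^ (K ^ J)) (z0 ^ (K ^ (J + 1)))).filter
        (fun p => p.Prime ∧ p ≡ 1 [MOD (2 ^ (m + 1))]), (2 : ℝ) ^ m / p := by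
      rw [div_le_iff₀ (by positivity), Finset.sum_mul] at h1
      refine h1.trans (le_of_eq (Finset.sum_congr rfl fun p _ => ?_))
      ring
    push_cast
    linarith

/-- the primes dividing `a` contribute little -/
theorem small_divisors (a m z0 : ℕ) (ha : 1 ≤ a) (T : Finset ℕ)
    (hT : ∀ p ∈ T, p.Prime ∧ z0 < p ∧ p ∣ a) (hz0 : (2 : ℝ) ^ m * (2 * Real.log a) ≤ z0) (hz : 1 ≤ z0) :
    ∑ p ∈ T, (2 : ℝ) ^ m / p ≤ 1 := by
  have hz' : (0 : ℝ) < z0 := by exact_mod_cast hz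
  have hcard : (T.card : ℝ) ≤ 2 * Real.log a := by
    have h1 : T ⊆ a.primeFactors := by
      intro p hp
      obtain ⟨h1, _, h3⟩ := hT p hp
      exact Nat.mem_primeFactors.mpr ⟨h1, h3, by omega⟩
    have h2 : 2 ^ T.card ≤ a := by
      calc 2 ^ T.card ≤ ∏ p ∈ T, p := by
            rw [← Finset.prod_const]
            exact Finset.prod_le_prod' fun p hp => (hT p hp).1.two_le
        _ ≤ ∏ p ∈ a.primeFactors, p := by
            apply Finset.prod_le_prod_of_subset_of_one_le' h1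
            intro p hp _
            exact (Nat.prime_of_mem_primeFactors hp).one_le
        _ ≤ a := Nat.le_of_dvd (by omega) (Nat.prod_primeFactors_dvd a)
    have h3 : Real.log ((2 : ℝ) ^ T.card) ≤ Real.log a :=
      Real.log_le_log (by positivity) (by exact_mod_cast h2)
    rw [Real.log_pow] at h3
    have h4 := Real.log_two_gt_d9
    have h5 : (0 : ℝ) ≤ T.card := Nat.cast_nonneg _
    nlinarith
  calc ∑ p ∈ T, (2 : ℝ) ^ m / p ≤ ∑ p ∈ T, (2 : ℝ) ^ m / z0 := by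
        apply Finset.sum_le_sum
        intro p hp
        apply div_le_div_of_nonneg_left (by positivity) hz'
        exact_mod_cast (hT p hp).2.1.le
    _ = T.card * ((2 : ℝ) ^ m / z0) := by rw [Finset.sum_const, nsmul_eq_mul]
    _ ≤ (2 * Real.log a) * ((2 : ℝ) ^ m / z0) :=
        mul_le_mul_of_nonneg_right hcard (by positivity)
    _ = ((2 : ℝ) ^ m * (2 * Real.log a)) / z0 := by ring
    _ ≤ 1 := by rw [div_le_one hz']; exact hz0

open Classical in
/-- the bound with `J` blocks -/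
theorem with_blocks (K : ℕ) (c : ℝ) (z1 z0 a m B Y J : ℕ) (hc : 0 < c) (hK : 1 ≤ K) (hz : z1 ≤ z0)
    (hz1 : 1 ≤ z0) (hm : (2 ^ (m + 1)) ^ 16 ≤ z0) (ha : 1 ≤ a)
    (hza : (2 : ℝ) ^ m * (2 * Real.log a) ≤ z0)
    (h : ∀ z : ℕ, z1 ≤ z → ∀ k b : ℕ, (2 ^ k) ^ 16 ≤ z → b.Coprime (2 ^ k) →
      c / ((2 ^ k).totient : ℝ) ≤
        ∑ p ∈ (Ioc z (z ^ K)).filter (fun p => p.Prime ∧ p ≡ b [MOD (2 ^ k)]), (1 : ℝ) / p)
    (hJ : 4 * (6 * c * J + 3) * K ^ J * Real.log z0 ≤ Real.log Y) (hY : 1 ≤ Y) (hYB : Y ≤ B) :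
    (((range (B + 1)).filter fun n => Hard a m Y n).card : ℝ) ≤
      18 * B * Real.exp (-(c * J)) + 6 * Real.sqrt Y := by
  have hz' : (1 : ℝ) ≤ z0 := by exact_mod_cast hz1
  have hY' : (1 : ℝ) ≤ Y := by exact_mod_cast hY
  have hB1 : (1 : ℝ) ≤ B := by exact_mod_cast hY.trans hYB
  obtain ⟨y, hy⟩ : ∃ y, y = z0 ^ (K ^ J) := ⟨_, rfl⟩
  obtain ⟨r, hr⟩ : ∃ r, r = 2 * ⌈3 * c * J⌉₊ + 1 := ⟨_, rfl⟩
  have hcJ : 0 ≤ c * J := by positivity
  have hy1 : 1 ≤ y := by rw [hy]; exact Nat.one_le_pow _ _ hz1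
  have hrodd : Odd r := ⟨_, hr⟩
  have hr1 : 12 * (c * J) + 2 ≤ 2 * (r : ℝ) := by
    have := Nat.le_ceil (3 * c * J)
    rw [hr]; push_cast; linarith
  have hr2 : (r : ℝ) ≤ 6 * c * J + 3 := by
    have := Nat.ceil_lt_add_one (show 0 ≤ 3 * c * J by positivity)
    rw [hr]; push_cast; linarith
  -- `y ^ (2 r) ≤ √Y`
  have hyr : (y : ℝ) ^ (2 * r) ≤ Real.sqrt Y := by
    have h1 : Real.log ((y : ℝ) ^ (2 * r)) ≤ Real.log (Real.sqrt Y) := by
      rw [Real.log_pow, Real.log_sqrt (by linarith), hy]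
      push_cast
      rw [Real.log_pow]
      have h2 : (r : ℝ) * (K ^ J * Real.log z0) ≤ (6 * c * J + 3) * (K ^ J * Real.log z0) :=
        mul_le_mul_of_nonneg_right hr2 (mul_nonneg (by positivity) (Real.log_nonneg hz'))
      push_cast
      nlinarith
    exact (Real.log_le_log_iff (by positivity) (by positivity)).mp h1
  have hsq : Real.sqrt Y ≤ Y := by
    rw [Real.sqrt_le_left (by linarith)]
    nlinarith
  have hyY : y ≤ Y := by
    have h1 : (y : ℝ) ≤ (y : ℝ) ^ (2 * r) := le_self_pow₀ (by exact_mod_cast hy1) (by omega)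
    have h2 : (y : ℝ) ≤ Y := (h1.trans hyr).trans hsq
    exact_mod_cast h2
  -- the primes
  have hb := blocks K c z1 z0 m hK hz hz1 hm h J
  rw [← hy] at hb
  set Tall := (Ioc z0 y).filter (fun p => p.Prime ∧ p ≡ 1 [MOD (2 ^ (m + 1))]) with hTall
  have hTallp : ∀ p ∈ Tall, p.Prime ∧ z0 < p ∧ p ≤ y ∧ 2 ^ (m + 1) ∣ p - 1 := by
    intro p hp
    rw [hTall, mem_filter, mem_Ioc] at hp
    exact ⟨hp.2.1, hp.1.1, hp.1.2, (Nat.modEq_iff_dvd' hp.2.1.one_le).mp hp.2.2.symm⟩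
  set Ta := Tall.filter (fun p => ¬ p ∣ a) with hTa
  have hTa_sum : c * J - 1 ≤ ∑ p ∈ Ta, (2 : ℝ) ^ m / p := by
    have h1 := Finset.sum_filter_add_sum_filter_not Tall (fun p => p ∣ a) (fun p : ℕ => (2 : ℝ) ^ m / p)
    have h2 := small_divisors a m z0 ha (Tall.filter (fun p => p ∣ a)) (by
      intro p hp
      rw [mem_filter] at hp
      exact ⟨(hTallp p hp.1).1, (hTallp p hp.1).2.1, hp.2⟩) hza hz1
    rw [← hTa] at h1
    linarith
  obtain ⟨t, ht⟩ : ∃ t, t = max 0 (c * J - 1) := ⟨_, rfl⟩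
  have ht0 : 0 ≤ t := by rw [ht]; exact le_max_left _ _
  have htJ : t ≤ c * J := by rw [ht]; exact max_le hcJ (by linarith)
  have htJ' : c * J - 1 ≤ t := by rw [ht]; exact le_max_right _ _
  have hTa0 : 0 ≤ ∑ p ∈ Ta, (2 : ℝ) ^ m / p := Finset.sum_nonneg fun p _ => by positivity
  have httot : t ≤ ∑ p ∈ Ta, (2 : ℝ) ^ m / p := by rw [ht]; exact max_le hTa0 hTa_sum
  have hw1 : ∀ p ∈ Ta, (2 : ℝ) ^ m / p ≤ 1 := by
    intro p hp
    rw [hTa, mem_filter] at hp
    obtain ⟨q1, q2, q3, q4⟩ := hTallp p hp.1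
    have h1 : 2 ^ (m + 1) ≤ p - 1 := Nat.le_of_dvd (by have := q1.two_le; omega) q4
    have h2 : 2 ^ m ≤ p := by
      have : 2 ^ m ≤ 2 ^ (m + 1) := Nat.pow_le_pow_right (by norm_num) (by omega)
      omega
    rw [div_le_one (by exact_mod_cast q1.pos)]
    exact_mod_cast h2
  obtain ⟨T, hTsub, hT1, hT2⟩ := subset_sum Ta (fun p => (2 : ℝ) ^ m / p)
    (fun p _ => by positivity) hw1 t ht0 httot
  have hTp : ∀ p ∈ T, p.Prime ∧ p ≤ y ∧ 2 ^ (m + 1) ∣ p - 1 ∧ ¬ p ∣ a := by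
    intro p hp
    have h1 := hTsub hp
    rw [hTa, mem_filter] at h1
    obtain ⟨q1, q2, q3, q4⟩ := hTallp p h1.1
    exact ⟨q1, q3, q4, h1.2⟩
  have hmain := sieve_bound a m B y Y r hy1 hyY hrodd T hTp
  obtain ⟨μ, hμ⟩ : ∃ μ, μ = ∑ p ∈ T, (2 : ℝ) ^ m / p := ⟨_, rfl⟩
  rw [← hμ] at hmain
  simp only [← hμ] at hT1 hT2
  have e1 : Real.exp (-μ) ≤ 8 * Real.exp (-(c * J)) := by
    have h1 : Real.exp (-μ) ≤ Real.exp (2 + -(c * J)) := Real.exp_le_exp.mpr (by linarith)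
    rw [Real.exp_add] at h1
    have he : Real.exp 2 ≤ 8 := by
      have h1 : Real.exp 2 = Real.exp 1 * Real.exp 1 := by rw [← Real.exp_add]; norm_num
      have h2 := Real.exp_one_lt_d9
      have h3 := Real.exp_pos 1
      rw [h1]; nlinarith
    exact h1.trans (mul_le_mul_of_nonneg_right he (Real.exp_pos _).le)
  have e2 : Real.exp (8 * μ - 2 * r) ≤ Real.exp (-(c * J)) := Real.exp_le_exp.mpr (by linarith)
  have e3 : 2 * (y : ℝ) + 1 ≤ 3 * Real.sqrt Y := by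
    have h1 : (y : ℝ) ≤ (y : ℝ) ^ (2 * r) := le_self_pow₀ (by exact_mod_cast hy1) (by omega)
    have h2 : (1 : ℝ) ≤ Real.sqrt Y := by
      rw [Real.one_le_sqrt]; exact hY'
    linarith
  have e4 : ((B : ℝ) + 1) * (Real.exp (-μ) + Real.exp (8 * μ - 2 * r)) ≤
      (2 * B) * (9 * Real.exp (-(c * J))) := by
    apply mul_le_mul (by linarith) (by linarith) (by positivity) (by positivity)
  linarith

open Classical in
/-- **Generalised Fermat numbers with almost all bases are composite**, uniformly. -/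
theorem main : ∃ c C : ℝ, 0 < c ∧ 0 < C ∧ ∀ a m Y B : ℕ, 1 ≤ a → 1 ≤ m → 2 ≤ Y → Y ≤ B →
    (((range (B + 1)).filter fun n => Hard a m Y n).card : ℝ) ≤
      C * B * ((m + Real.log (Real.log (a + 16))) / Real.log Y) ^ c := by
  obtain ⟨K₀, c1, z1, hK₀, hc1, hpage⟩ := page_two
  -- enlarge `K`
  obtain ⟨K, hK⟩ : ∃ K, K = K₀ + 1 := ⟨_, rfl⟩
  have hpage' : ∀ z : ℕ, z1 ≤ z → ∀ k b : ℕ, (2 ^ k) ^ 16 ≤ z → b.Coprime (2 ^ k) →
      c1 / ((2 ^ k).totient : ℝ) ≤
        ∑ p ∈ (Ioc z (z ^ K)).filter (fun p => p.Prime ∧ p ≡ b [MOD (2 ^ k)]), (1 : ℝ) / p := by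
    intro z hz k b hk hb
    refine (hpage z hz k b hk hb).trans ?_
    apply Finset.sum_le_sum_of_subset_of_nonneg
    · apply Finset.filter_subset_filter
      apply Finset.Ioc_subset_Ioc_right
      have hz1 : 1 ≤ z := le_trans (Nat.one_le_pow _ _ (by positivity)) hk
      exact Nat.pow_le_pow_right hz1 (by omega)
    · intro p _ _; positivity
  have hK2 : (2 : ℝ) ≤ K := by
    have : 2 ≤ K := by omega
    exact_mod_cast this
  obtain ⟨lK, hlK⟩ : ∃ lK, lK = Real.log (2 * K) := ⟨_, rfl⟩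
  have hlK0 : 0 < lK := by rw [hlK]; exact Real.log_pos (by linarith)
  obtain ⟨c, hc⟩ : ∃ c, c = min (c1 / lK) 1 := ⟨_, rfl⟩
  have hc0 : 0 < c := by rw [hc]; exact lt_min (by positivity) one_pos
  have hcle : c ≤ c1 / lK := by rw [hc]; exact min_le_left _ _
  have hcle1 : c ≤ 1 := by rw [hc]; exact min_le_right _ _
  obtain ⟨D, hD⟩ : ∃ D, D = 24 * c1 + 12 := ⟨_, rfl⟩
  have hD1 : 12 ≤ D := by rw [hD]; linarith
  obtain ⟨C2, hC2⟩ : ∃ C2, C2 = 24 + Real.log (z1 + 1) := ⟨_, rfl⟩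
  have hz1log : 0 ≤ Real.log ((z1 : ℝ) + 1) := Real.log_nonneg (by linarith [Nat.cast_nonneg (α := ℝ) z1])
  have hC2' : 24 ≤ C2 := by rw [hC2]; linarith
  obtain ⟨C3, hC3⟩ : ∃ C3, C3 = 18 * Real.exp c1 * D ^ c + 12 + 2 * D ^ c := ⟨_, rfl⟩
  have hDc : 0 < D ^ c := by positivity
  have hC3pos : 0 < C3 := by rw [hC3]; positivity
  refine ⟨c, C3 * C2 ^ c, hc0, by positivity, ?_⟩
  intro a m Y B ha hm hY hYB
  -- notation
  obtain ⟨LL, hLL⟩ : ∃ LL, LL = Real.log (Real.log ((a : ℝ) + 16)) := ⟨_, rfl⟩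
  rw [← hLL]
  have ha' : (1 : ℝ) ≤ a := by exact_mod_cast ha
  have hm' : (1 : ℝ) ≤ m := by exact_mod_cast hm
  have hY' : (2 : ℝ) ≤ Y := by exact_mod_cast hY
  have hYB' : (Y : ℝ) ≤ B := by exact_mod_cast hYB
  have hlogY : 0 < Real.log Y := Real.log_pos (by linarith)
  have he16 : Real.exp 1 ^ 2 ≤ (a : ℝ) + 16 := by
    have h1 := Real.exp_one_lt_d9
    have h2 := Real.exp_pos 1
    nlinarith
  have hloga : 2 ≤ Real.log ((a : ℝ) + 16) := by
    rw [Real.le_log_iff_exp_le (by linarith)]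
    have : Real.exp 2 = Real.exp 1 ^ 2 := by rw [← Real.exp_nat_mul]; norm_num
    rw [this]; exact he16
  have hLL0 : 0 ≤ LL := by rw [hLL]; exact Real.log_nonneg (by linarith)
  -- `z0`
  obtain ⟨w, hw⟩ : ∃ w, w = ⌈Real.log ((a : ℝ) + 16)⌉₊ := ⟨_, rfl⟩
  have hw1 : Real.log ((a : ℝ) + 16) ≤ w := by rw [hw]; exact Nat.le_ceil _
  have hw2 : (w : ℝ) ≤ 2 * Real.log ((a : ℝ) + 16) := by
    have := Nat.ceil_lt_add_one (show 0 ≤ Real.log ((a : ℝ) + 16) by linarith)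
    rw [hw]; linarith
  have hwpos : 1 ≤ w := by
    have : (0 : ℝ) < w := by linarith
    exact_mod_cast this
  obtain ⟨z0, hz0⟩ : ∃ z0, z0 = (2 ^ (m + 1)) ^ 16 * (z1 + 1) * w := ⟨_, rfl⟩
  have hp16 : 1 ≤ (2 ^ (m + 1)) ^ 16 := Nat.one_le_pow _ _ (by positivity)
  have hz0a : z1 ≤ z0 := by
    rw [hz0]
    calc z1 ≤ 1 * (z1 + 1) * 1 := by omega
      _ ≤ _ := Nat.mul_le_mul (Nat.mul_le_mul hp16 le_rfl) hwpos
  have hz0b : (2 ^ (m + 1)) ^ 16 ≤ z0 := by
    rw [hz0]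
    calc (2 ^ (m + 1)) ^ 16 = (2 ^ (m + 1)) ^ 16 * 1 * 1 := by ring
      _ ≤ _ := Nat.mul_le_mul (Nat.mul_le_mul le_rfl (by omega)) hwpos
  have hz0c : 1 ≤ z0 := hp16.trans hz0b
  have hz0d : (2 : ℝ) ^ m * (2 * Real.log a) ≤ z0 := by
    have h1 : (2 : ℝ) ^ m * 2 ≤ (2 ^ (m + 1)) ^ 16 := by
      rw [← pow_succ]
      exact le_self_pow₀ (one_le_pow₀ (by norm_num)) (by norm_num)
    have h2 : Real.log a ≤ w := (Real.log_le_log (by linarith) (by linarith)).trans hw1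
    have h3 : 0 ≤ Real.log (a : ℝ) := Real.log_nonneg ha'
    have h4 : (2 : ℝ) ^ m * (2 * Real.log a) ≤ (2 ^ (m + 1)) ^ 16 * 1 * w := by
      calc (2 : ℝ) ^ m * (2 * Real.log a) = ((2 : ℝ) ^ m * 2) * Real.log a := by ring
        _ ≤ (2 ^ (m + 1)) ^ 16 * w := mul_le_mul h1 h2 h3 (by positivity)
        _ = _ := by ring
    refine h4.trans ?_
    rw [hz0]
    push_cast
    apply mul_le_mul_of_nonneg_right _ (by positivity)
    apply mul_le_mul_of_nonneg_left _ (by positivity)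
    linarith [Nat.cast_nonneg (α := ℝ) z1]
  obtain ⟨Ld, hLd⟩ : ∃ Ld, Ld = Real.log (z0 : ℝ) := ⟨_, rfl⟩
  have hLd1 : 1 ≤ Ld := by
    rw [hLd, Real.le_log_iff_exp_le (by exact_mod_cast hz0c)]
    have h1 : (16 : ℝ) ≤ z0 := by
      have h2 : 16 ≤ z0 := by
        refine le_trans ?_ hz0b
        calc 16 ≤ 2 ^ 16 := by norm_num
          _ ≤ (2 ^ (m + 1)) ^ 16 := Nat.pow_le_pow_left (by
            calc 2 = 2 ^ 1 := rfl
              _ ≤ 2 ^ (m + 1) := Nat.pow_le_pow_right (by norm_num) (by omega)) 16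
      exact_mod_cast h2
    linarith [Real.exp_one_lt_d9]
  have hLd2 : Ld ≤ C2 * (m + LL) := by
    have h1 : Ld = 16 * ((m + 1) * Real.log 2) + Real.log (z1 + 1) + Real.log w := by
      rw [hLd, hz0]
      push_cast
      have hw0 : (0 : ℝ) < w := by exact_mod_cast hwpos
      rw [Real.log_mul (by positivity) (by positivity), Real.log_mul (by positivity) (by positivity),
        Real.log_pow, Real.log_pow]
      push_cast; ring
    have h2 : Real.log w ≤ Real.log 2 + LL := by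
      rw [hLL, ← Real.log_mul (by norm_num) (by linarith)]
      exact Real.log_le_log (by exact_mod_cast hwpos) hw2
    have h3 := Real.log_two_lt_d9
    have h4 : Real.log ((z1 : ℝ) + 1) ≤ Real.log ((z1 : ℝ) + 1) * (m + LL) := by nlinarith
    rw [h1, hC2]
    nlinarith
  obtain ⟨R, hR⟩ : ∃ R, R = Real.log Y / Ld := ⟨_, rfl⟩
  have hLd0 : 0 < Ld := by linarith
  have hR0 : 0 < R := by rw [hR]; positivity
  -- it is enough to bound by `C3 B R ^ (-c)`
  have hRρ : (R⁻¹) ^ c ≤ C2 ^ c * ((m + LL) / Real.log Y) ^ c := by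
    rw [← Real.mul_rpow (by linarith) (by positivity)]
    apply Real.rpow_le_rpow (by positivity) _ hc0.le
    rw [hR, inv_div, ← mul_div_assoc]
    exact div_le_div_of_nonneg_right hLd2 hlogY.le
  have hB0 : (0 : ℝ) < B := by linarith
  suffices hs : (((range (B + 1)).filter fun n => Hard a m Y n).card : ℝ) ≤ C3 * B * (R⁻¹) ^ c by
    refine hs.trans ?_
    have := mul_le_mul_of_nonneg_left hRρ (by positivity : 0 ≤ C3 * B)
    calc C3 * B * R⁻¹ ^ c ≤ C3 * B * (C2 ^ c * ((m + LL) / Real.log Y) ^ c) := this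
      _ = _ := by ring
  rcases lt_or_ge R D with hRD | hRD
  · -- the trivial bound
    have h1 : (((range (B + 1)).filter fun n => Hard a m Y n).card : ℝ) ≤ B + 1 := by
      have h2 := Finset.card_filter_le (range (B + 1)) (fun n => Hard a m Y n)
      rw [Finset.card_range] at h2
      exact_mod_cast h2
    have h2 : 1 ≤ D ^ c * (R⁻¹) ^ c := by
      rw [← Real.mul_rpow (by linarith) (by positivity)]
      apply Real.one_le_rpow _ hc0.le
      rw [← div_eq_mul_inv, one_le_div hR0]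
      exact hRD.le
    have h3 : 0 ≤ (R⁻¹) ^ c := by positivity
    calc (((range (B + 1)).filter fun n => Hard a m Y n).card : ℝ) ≤ B + 1 := h1
      _ ≤ 2 * B * 1 := by linarith
      _ ≤ 2 * B * (D ^ c * (R⁻¹) ^ c) := mul_le_mul_of_nonneg_left h2 (by positivity)
      _ = (2 * D ^ c) * (B * (R⁻¹) ^ c) := by ring
      _ ≤ C3 * (B * (R⁻¹) ^ c) := by
          apply mul_le_mul_of_nonneg_right _ (by positivity)
          rw [hC3]
          have : 0 ≤ 18 * Real.exp c1 * D ^ c := by positivity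
          linarith
      _ = _ := by ring
  · -- the main case
    obtain ⟨J, hJ⟩ : ∃ J, J = ⌊Real.log (R / D) / lK⌋₊ := ⟨_, rfl⟩
    have hD0 : 0 < D := by linarith
    have hRD1 : 1 ≤ R / D := by rw [one_le_div hD0]; exact hRD
    have hq0 : 0 ≤ Real.log (R / D) / lK := div_nonneg (Real.log_nonneg hRD1) hlK0.le
    have hJ1 : (J : ℝ) ≤ Real.log (R / D) / lK := by rw [hJ]; exact Nat.floor_le hq0
    have hJ2 : Real.log (R / D) / lK < J + 1 := by rw [hJ]; exact Nat.lt_floor_add_one _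
    have hpow : ((2 : ℝ) * K) ^ J ≤ R / D := by
      have h1 : Real.log (((2 : ℝ) * K) ^ J) ≤ Real.log (R / D) := by
        rw [Real.log_pow, ← hlK]
        rwa [le_div_iff₀ hlK0] at hJ1
      exact (Real.log_le_log_iff (by positivity) (by positivity)).mp h1
    have hcond : 4 * (6 * c1 * J + 3) * K ^ J * Real.log z0 ≤ Real.log Y := by
      have h1 : 6 * c1 * J + 3 ≤ (6 * c1 + 3) * 2 ^ J := by
        have h2 : (J : ℝ) ≤ 2 ^ J := by exact_mod_cast (Nat.lt_two_pow_self (n := J)).le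
        have h3 : (1 : ℝ) ≤ 2 ^ J := one_le_pow₀ (by norm_num)
        nlinarith
      rw [← hLd]
      have h4 : 4 * (6 * c1 * J + 3) * K ^ J ≤ R := by
        calc 4 * (6 * c1 * J + 3) * (K : ℝ) ^ J ≤ 4 * ((6 * c1 + 3) * 2 ^ J) * K ^ J := by
              apply mul_le_mul_of_nonneg_right _ (by positivity)
              linarith
          _ = D * ((2 : ℝ) * K) ^ J := by rw [hD, mul_pow]; ring
          _ ≤ D * (R / D) := mul_le_mul_of_nonneg_left hpow hD0.le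
          _ = R := by field_simp
      calc 4 * (6 * c1 * J + 3) * (K : ℝ) ^ J * Ld ≤ R * Ld := mul_le_mul_of_nonneg_right h4 hLd0.le
        _ = Real.log Y := by rw [hR]; field_simp
    have hwb := with_blocks K c1 z1 z0 a m B Y J hc1 (by omega) hz0a hz0c hz0b ha hz0d hpage' hcond
      (by omega) hYB
    refine hwb.trans ?_
    -- the exponential
    have hexp : Real.exp (-(c1 * J)) ≤ Real.exp c1 * D ^ c * (R⁻¹) ^ c := by
      have h1 : c * Real.log (R / D) ≤ c1 * (J + 1) := by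
        have h2 : Real.log (R / D) ≤ (J + 1) * lK := by
          rw [div_lt_iff₀ hlK0] at hJ2; exact hJ2.le
        have h3 : c * Real.log (R / D) ≤ (c1 / lK) * Real.log (R / D) :=
          mul_le_mul_of_nonneg_right hcle (Real.log_nonneg hRD1)
        have h4 : (c1 / lK) * Real.log (R / D) ≤ (c1 / lK) * ((J + 1) * lK) :=
          mul_le_mul_of_nonneg_left h2 (by positivity)
        have h5 : (c1 / lK) * ((J + 1) * lK) = c1 * (J + 1) := by field_simp
        linarith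
      have h6 : Real.exp (-(c1 * J)) ≤ Real.exp (c1 - c * Real.log (R / D)) :=
        Real.exp_le_exp.mpr (by linarith)
      refine h6.trans (le_of_eq ?_)
      rw [sub_eq_add_neg, Real.exp_add, mul_assoc]
      congr 1
      rw [← Real.mul_rpow hD0.le (by positivity), ← div_eq_mul_inv,
        Real.rpow_def_of_pos (by positivity), Real.log_div (by positivity) (by positivity),
        Real.log_div (by positivity) (by positivity)]
      congr 1; ring
    -- the square root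
    have hsqrt : Real.sqrt Y ≤ 2 * B * (R⁻¹) ^ c := by
      have h1 : Real.log Y ≤ 2 * Real.sqrt Y := by
        have h2 : Real.log (Real.sqrt Y) ≤ Real.sqrt Y := by
          have := Real.log_le_sub_one_of_pos (show 0 < Real.sqrt (Y : ℝ) by positivity)
          linarith
        rw [Real.log_sqrt (by linarith)] at h2
        linarith
      have hRY : R ≤ Real.log Y := by rw [hR]; exact div_le_self hlogY.le hLd1
      have hR1 : 1 ≤ R := by linarith
      have h3 : R⁻¹ ≤ (R⁻¹) ^ c := by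
        have h4 : (R⁻¹) ^ (1 : ℝ) ≤ (R⁻¹) ^ c :=
          Real.rpow_le_rpow_of_exponent_ge (by positivity) (inv_le_one_of_one_le₀ hR1) hcle1
        rwa [Real.rpow_one] at h4
      have h5 : Real.sqrt Y ≤ 2 * B * R⁻¹ := by
        rw [← div_eq_mul_inv, le_div_iff₀ hR0]
        calc Real.sqrt Y * R ≤ Real.sqrt Y * (2 * Real.sqrt Y) :=
              mul_le_mul_of_nonneg_left (hRY.trans h1) (Real.sqrt_nonneg _)
          _ = 2 * (Real.sqrt Y * Real.sqrt Y) := by ring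
          _ = 2 * Y := by rw [Real.mul_self_sqrt (by linarith)]
          _ ≤ 2 * B := by linarith
      refine h5.trans ?_
      exact mul_le_mul_of_nonneg_left h3 (by positivity)
    have h9 : 18 * (B : ℝ) * Real.exp (-(c1 * J)) ≤
        18 * B * (Real.exp c1 * D ^ c * (R⁻¹) ^ c) :=
      mul_le_mul_of_nonneg_left hexp (by positivity)
    have h10 : 0 ≤ (2 * D ^ c) * (B * (R⁻¹) ^ c) := by positivity
    calc 18 * (B : ℝ) * Real.exp (-(c1 * J)) + 6 * Real.sqrt Y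
        ≤ 18 * B * (Real.exp c1 * D ^ c * (R⁻¹) ^ c) + 6 * (2 * B * (R⁻¹) ^ c) := by linarith
      _ = (18 * Real.exp c1 * D ^ c + 12) * (B * (R⁻¹) ^ c) := by ring
      _ ≤ (18 * Real.exp c1 * D ^ c + 12 + 2 * D ^ c) * (B * (R⁻¹) ^ c) := by linarith
      _ = C3 * B * (R⁻¹) ^ c := by rw [hC3]; ring

end Pool.Agent.helper616_gf
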